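import Pool.Agent.Y198.EX.Stm

/-!
# The closed formal fibre (project EX, job EX-E)

(helper686, for helper198.)
-/

set_option autoImplicit false

namespace Pool.Agent.Y686.EX.E

open TensorProduct
open Pool.Agent.Y198.EX

theorem t : stmE := by
  intro R K' _ _ _ _ _ h
  set m := IsLocalRing.maximalIdeal R with hm
  have fg : m.FG := (IsLocalRing.maximalIdeal R).fg_of_isNoetherianRing
  -- the elements of `m` kill the tensor product
  have h1 : ∀ (k : K') (y : AdicCompletion m R), y ∈ m.map (algebraMap R (AdicCompletion m R)) →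
      (k ⊗ₜ[R] y : K' ⊗[R] AdicCompletion m R) = 0 := by
    intro k y hy
    unfold Ideal.map at hy
    refine Submodule.span_induction (p := fun y _ => (k ⊗ₜ[R] y : K' ⊗[R] AdicCompletion m R) = 0)
      ?_ ?_ ?_ ?_ hy
    · rintro _ ⟨r, hr, rfl⟩
      rw [Algebra.algebraMap_eq_smul_one, ← TensorProduct.smul_tmul, Algebra.smul_def, h r hr,
        zero_mul, TensorProduct.zero_tmul]
    · exact TensorProduct.tmul_zero _ _
    · intro a b _ _ ha hb
      rw [TensorProduct.tmul_add, ha, hb, add_zero]
    · intro a b _ hb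
      have : (k ⊗ₜ[R] (a • b) : K' ⊗[R] AdicCompletion m R) = (1 ⊗ₜ[R] a) * (k ⊗ₜ[R] b) := by
        rw [Algebra.TensorProduct.tmul_mul_tmul, one_mul, smul_eq_mul]
      rw [this, hb, mul_zero]
  -- decomposition
  have h2 : ∀ x : AdicCompletion m R, ∃ r : R,
      x - algebraMap R (AdicCompletion m R) r ∈ m.map (algebraMap R (AdicCompletion m R)) := by
    intro x
    obtain ⟨r, hr⟩ := Ideal.Quotient.mk_surjective (AdicCompletion.evalOneₐ m x)
    refine ⟨r, ?_⟩
    rw [← AdicCompletion.ker_evalOneₐ_eq_map m fg, RingHom.mem_ker, map_sub]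
    show AdicCompletion.evalOneₐ m x - AdicCompletion.evalOneₐ m (algebraMap R _ r) = 0
    rw [← hr, AlgHom.commutes]
    exact sub_self _
  have h3 : Function.Surjective (Algebra.TensorProduct.includeLeft :
      K' →ₐ[K'] K' ⊗[R] AdicCompletion m R) := by
    intro z
    induction z with
    | zero => exact ⟨0, map_zero _⟩
    | add a b ha hb =>
      obtain ⟨a', rfl⟩ := ha
      obtain ⟨b', rfl⟩ := hb
      exact ⟨a' + b', map_add _ _ _⟩
    | tmul k x =>
      obtain ⟨r, hr⟩ := h2 x
      refine ⟨r • k, ?_⟩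
      have h4 := h1 k _ hr
      rw [TensorProduct.tmul_sub, sub_eq_zero] at h4
      rw [h4, Algebra.TensorProduct.includeLeft_apply, Algebra.algebraMap_eq_smul_one,
        TensorProduct.smul_tmul]
  rcases subsingleton_or_nontrivial (K' ⊗[R] AdicCompletion m R) with hs | hn
  · exact ⟨fun x _ => Subsingleton.elim _ _⟩
  · have h5 : Function.Bijective (Algebra.TensorProduct.includeLeft :
      K' →ₐ[K'] K' ⊗[R] AdicCompletion m R) := ⟨RingHom.injective _, h3⟩
    exact (isReduced_of_injective
      (AlgEquiv.ofBijective (Algebra.TensorProduct.includeLeft :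
        K' →ₐ[K'] K' ⊗[R] AdicCompletion m R) h5).symm
      (AlgEquiv.injective _))

end Pool.Agent.Y686.EX.E
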